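import Mathlib

/-!
# Projective extension of two dimensional representations

A representation of a subgroup `H` of `W` whose restriction to a normal subgroup `A` of `W`
contained in `H` is irreducible, has no nontrivial selftwist, and is invariant under `W` up to
twist, extends to a projective representation of `W`.
-/

set_option autoImplicit false

namespace Q112PI

open Matrix

variable {k : Type} [Field k]

section defs

variable {G : Type} [Group G]

/-- `r` is irreducible. -/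
def Irr (r : G →* GL (Fin 2) k) : Prop :=
  ∀ U : Submodule k (Fin 2 → k),
    (∀ g, ∀ u ∈ U, (r g : Matrix (Fin 2) (Fin 2) k) *ᵥ u ∈ U) → U = ⊥ ∨ U = ⊤

/-- `r` has no nontrivial selftwist `r ≅ η ⊗ r`. -/
def NoSelfTwist (r : G →* GL (Fin 2) k) : Prop :=
  ∀ η : G →* kˣ, (∃ M : GL (Fin 2) k, ∀ g,
    (M : Matrix (Fin 2) (Fin 2) k) * r g = (η g : k) • ((r g : Matrix (Fin 2) (Fin 2) k) * M)) →
    η = 1

/-- `r' = χ ⊗ r` for a character `χ`. -/
def IsTwist (r r' : G →* GL (Fin 2) k) : Prop :=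
  ∃ χ : G →* kˣ, ∀ g, (r' g : Matrix (Fin 2) (Fin 2) k) = (χ g : k) • (r g : Matrix _ _ k)

/-- `P` is a projective representation. -/
def IsProj (P : G → GL (Fin 2) k) : Prop :=
  ∀ g h : G, ∃ c : kˣ, (P g : Matrix (Fin 2) (Fin 2) k) * (P h : Matrix (Fin 2) (Fin 2) k)
    = (c : k) • (P (g * h) : Matrix (Fin 2) (Fin 2) k)

/-- The restriction of `ρ` to the normal subgroup `A` is isomorphic to a twist of each of its
conjugates by the elements of the whole group. -/
def InvUpToTwist {A : Subgroup G} [A.Normal] (r : A →* GL (Fin 2) k) : Prop :=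
  ∀ σ : G, ∃ (M : GL (Fin 2) k) (χ : A →* kˣ), ∀ a : A,
    (r (MulAut.conjNormal σ a) : Matrix (Fin 2) (Fin 2) k) * M
      = (χ a : k) • ((M : Matrix (Fin 2) (Fin 2) k) * r a)

/-- Schur. -/
theorem schur [IsAlgClosed k] {r : G →* GL (Fin 2) k} (hr : Irr r) (N : GL (Fin 2) k)
    (hN : ∀ g, (N : Matrix (Fin 2) (Fin 2) k) * r g = (r g : Matrix (Fin 2) (Fin 2) k) * N) :
    ∃ c : kˣ, (N : Matrix (Fin 2) (Fin 2) k) = (c : k) • (1 : Matrix (Fin 2) (Fin 2) k) := by
  obtain ⟨μ, hμ⟩ := Module.End.exists_eigenvalue (Matrix.toLin' (N : Matrix (Fin 2) (Fin 2) k))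
  have h1 := hr (Module.End.eigenspace (Matrix.toLin' (N : Matrix (Fin 2) (Fin 2) k)) μ) (by
    intro g u hu
    rw [Module.End.mem_eigenspace_iff] at hu ⊢
    rw [Matrix.toLin'_apply] at hu ⊢
    rw [Matrix.mulVec_mulVec, hN, ← Matrix.mulVec_mulVec, hu, Matrix.mulVec_smul])
  have h2 : Module.End.eigenspace (Matrix.toLin' (N : Matrix (Fin 2) (Fin 2) k)) μ = ⊤ :=
    h1.resolve_left hμ
  have h3 : (N : Matrix (Fin 2) (Fin 2) k) = μ • (1 : Matrix (Fin 2) (Fin 2) k) := by
    apply Matrix.toLin'.injective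
    refine LinearMap.ext fun v => ?_
    have hv : v ∈ Module.End.eigenspace (Matrix.toLin' (N : Matrix (Fin 2) (Fin 2) k)) μ := by
      rw [h2]
      exact Submodule.mem_top
    rw [Module.End.mem_eigenspace_iff] at hv
    rw [hv]
    simp
  have h4 : μ ≠ 0 := by
    rintro rfl
    rw [zero_smul] at h3
    have h5 : (N : Matrix (Fin 2) (Fin 2) k) * ((N⁻¹ : GL (Fin 2) k) : Matrix (Fin 2) (Fin 2) k)
        = 1 := by
      rw [← Units.val_mul, mul_inv_cancel, Units.val_one]
    rw [h3, zero_mul] at h5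
    exact zero_ne_one h5
  exact ⟨Units.mk0 μ h4, h3⟩

end defs

variable {W : Type} [Group W]

/-- Extension to a projective representation. -/
theorem exists_proj [IsAlgClosed k] {H A : Subgroup W} [hN : A.Normal] (hAH : A ≤ H)
    (ρ : H →* GL (Fin 2) k) (hirr : Irr (ρ.comp (Subgroup.inclusion hAH)))
    (hns : NoSelfTwist (ρ.comp (Subgroup.inclusion hAH)))
    (hinv : InvUpToTwist (ρ.comp (Subgroup.inclusion hAH))) :
    ∃ P : W → GL (Fin 2) k, IsProj P ∧ ∀ h : H, P h = ρ h := by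
  classical
  set r : A →* GL (Fin 2) k := ρ.comp (Subgroup.inclusion hAH) with hr
  choose M χ hM using hinv
  let P : W → GL (Fin 2) k := fun σ => if h : σ ∈ H then ρ ⟨σ, h⟩ else M σ
  have hPH : ∀ h : H, P h = ρ h := fun h => by
    show (if h' : (h : W) ∈ H then ρ ⟨h, h'⟩ else M h) = ρ h
    rw [dif_pos h.2]
  have hP : ∀ σ : W, ∃ θ : A →* kˣ, ∀ a : A,
      (r (MulAut.conjNormal σ a) : Matrix (Fin 2) (Fin 2) k) * P σ
        = (θ a : k) • ((P σ : Matrix (Fin 2) (Fin 2) k) * r a) := by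
    intro σ
    by_cases hσ : σ ∈ H
    · refine ⟨1, fun a => ?_⟩
      have h1 : P σ = ρ ⟨σ, hσ⟩ := hPH ⟨σ, hσ⟩
      have h2 : r (MulAut.conjNormal σ a) * ρ ⟨σ, hσ⟩ = ρ ⟨σ, hσ⟩ * r a := by
        rw [hr]
        show ρ (Subgroup.inclusion hAH (MulAut.conjNormal σ a)) * ρ ⟨σ, hσ⟩
          = ρ ⟨σ, hσ⟩ * ρ (Subgroup.inclusion hAH a)
        rw [← map_mul, ← map_mul]
        congr 1
        apply Subtype.ext
        simp [MulAut.conjNormal_apply]
      rw [h1, MonoidHom.one_apply, Units.val_one, one_smul, ← Units.val_mul, h2, Units.val_mul]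
    · refine ⟨χ σ, fun a => ?_⟩
      have h1 : P σ = M σ := by
        show (if h' : σ ∈ H then ρ ⟨σ, h'⟩ else M σ) = M σ
        rw [dif_neg hσ]
      rw [h1]
      exact hM σ a
  choose θ hθ using hP
  refine ⟨P, fun g h => ?_, hPH⟩
  let N : GL (Fin 2) k := (P (g * h))⁻¹ * (P g * P h)
  let c : A →* kˣ := (θ h)⁻¹ * ((θ g).comp (MulAut.conjNormal h).toMonoidHom)⁻¹ * θ (g * h)
  have hc : ∀ a, c a = (θ h a)⁻¹ * (θ g (MulAut.conjNormal h a))⁻¹ * θ (g * h) a := fun a => rfl
  -- everything in terms of matrices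
  have key : ∀ a : A, (N : Matrix (Fin 2) (Fin 2) k) * r a
      = (c a : k) • ((r a : Matrix (Fin 2) (Fin 2) k) * N) := by
    intro a
    have e1 := hθ h a
    have e2 := hθ g (MulAut.conjNormal h a)
    have e3 := hθ (g * h) a
    have e4 : MulAut.conjNormal (g * h) a = MulAut.conjNormal g (MulAut.conjNormal h a) := by
      rw [map_mul]
      rfl
    rw [e4] at e3
    set Q : Matrix (Fin 2) (Fin 2) k := Units.val ((P (g * h))⁻¹) with hQ
    have hQ1 : Q * (P (g * h) : Matrix (Fin 2) (Fin 2) k) = 1 := by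
      rw [hQ, ← Units.val_mul, inv_mul_cancel, Units.val_one]
    have hQ2 : (P (g * h) : Matrix (Fin 2) (Fin 2) k) * Q = 1 := by
      rw [hQ, ← Units.val_mul, mul_inv_cancel, Units.val_one]
    have hNQ : (N : Matrix (Fin 2) (Fin 2) k)
        = Q * ((P g : Matrix (Fin 2) (Fin 2) k) * P h) := by
      rw [hQ, ← Units.val_mul, ← Units.val_mul]
    set X : Matrix (Fin 2) (Fin 2) k := Units.val (P g)
    set Y : Matrix (Fin 2) (Fin 2) k := Units.val (P h)
    set Z : Matrix (Fin 2) (Fin 2) k := Units.val (P (g * h))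
    set B : Matrix (Fin 2) (Fin 2) k := Units.val (r (MulAut.conjNormal g (MulAut.conjNormal h a)))
    set D : Matrix (Fin 2) (Fin 2) k := Units.val (r (MulAut.conjNormal h a))
    set R : Matrix (Fin 2) (Fin 2) k := Units.val (r a)
    have f1 : Y * R = ((θ h a)⁻¹ : kˣ) • (D * Y) := by
      rw [e1]
      show Y * R = (((θ h a)⁻¹ : kˣ) : k) • ((θ h a : k) • (Y * R))
      rw [smul_smul, Units.inv_mul, one_smul]
    have f2 : X * D = ((θ g (MulAut.conjNormal h a))⁻¹ : kˣ) • (B * X) := by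
      rw [e2]
      show X * D = (((θ g (MulAut.conjNormal h a))⁻¹ : kˣ) : k)
        • ((θ g (MulAut.conjNormal h a) : k) • (X * D))
      rw [smul_smul, Units.inv_mul, one_smul]
    have f3 : Q * B = (θ (g * h) a : k) • (R * Q) := by
      calc Q * B = Q * B * (Z * Q) := by rw [hQ2, mul_one]
        _ = Q * (B * Z) * Q := by simp only [mul_assoc]
        _ = Q * ((θ (g * h) a : k) • (Z * R)) * Q := by rw [e3]
        _ = (θ (g * h) a : k) • (Q * Z * R * Q) := by
            rw [Matrix.mul_smul, Matrix.smul_mul]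
            simp only [mul_assoc]
        _ = (θ (g * h) a : k) • (R * Q) := by rw [hQ1, one_mul]
    rw [hNQ, hc]
    calc Q * (X * Y) * R = Q * (X * (Y * R)) := by simp only [mul_assoc]
      _ = Q * (X * (((θ h a)⁻¹ : kˣ) • (D * Y))) := by rw [f1]
      _ = ((θ h a)⁻¹ : kˣ) • (Q * ((X * D) * Y)) := by
          rw [Matrix.mul_smul, Matrix.mul_smul, mul_assoc]
      _ = ((θ h a)⁻¹ : kˣ) • ((θ g (MulAut.conjNormal h a))⁻¹ : kˣ) • ((Q * B) * (X * Y)) := by
          rw [f2, Matrix.smul_mul, Matrix.mul_smul]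
          simp only [mul_assoc]
      _ = ((θ h a)⁻¹ : kˣ) • ((θ g (MulAut.conjNormal h a))⁻¹ : kˣ) • (θ (g * h) a : k)
            • (R * (Q * (X * Y))) := by
          rw [f3, Matrix.smul_mul]
          simp only [mul_assoc]
      _ = _ := by
          simp only [Units.smul_def, smul_smul, Units.val_mul, mul_assoc]
  have hc1 : c = 1 := hns c ⟨N, key⟩
  obtain ⟨μ, hμ⟩ := schur hirr N (fun a => by
    have := key a
    rw [hc1, MonoidHom.one_apply, Units.val_one, one_smul] at this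
    exact this)
  refine ⟨μ, ?_⟩
  have h1 : (P g : Matrix (Fin 2) (Fin 2) k) * P h
      = (P (g * h) : Matrix (Fin 2) (Fin 2) k) * N := by
    rw [← Units.val_mul, ← Units.val_mul]
    congr 1
    show P g * P h = P (g * h) * ((P (g * h))⁻¹ * (P g * P h))
    rw [mul_inv_cancel_left]
  rw [h1, hμ, Matrix.mul_smul, mul_one]

/-- If `ρ₀` lifts the projective representation `P` and `P` is `ρ` on `H`, then `ρ₀` is on `H` a
twist of `ρ`, and `ρ` is a twist of the restriction of `ρ₀`. -/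
theorem twist_of_lift {H : Subgroup W} (ρ : H →* GL (Fin 2) k) (ρ₀ : W →* GL (Fin 2) k)
    (h : ∀ x : H, ∃ c : kˣ, (ρ₀ x : Matrix (Fin 2) (Fin 2) k) = (c : k) • (ρ x : Matrix _ _ k)) :
    IsTwist (ρ₀.comp H.subtype) ρ := by
  choose c hc using h
  have hone : ∀ u v : kˣ, ∀ g : GL (Fin 2) k,
      (u : k) • (g : Matrix (Fin 2) (Fin 2) k) = (v : k) • (g : Matrix (Fin 2) (Fin 2) k) →
      u = v := by
    intro u v g huv
    have h1 := congrArg (fun X : Matrix (Fin 2) (Fin 2) k =>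
      X * ((g⁻¹ : GL (Fin 2) k) : Matrix (Fin 2) (Fin 2) k)) huv
    simp only [Matrix.smul_mul] at h1
    rw [← Units.val_mul, mul_inv_cancel, Units.val_one] at h1
    have h2 := congrFun (congrFun h1 0) 0
    simp only [Matrix.smul_apply, Matrix.one_apply_eq, smul_eq_mul, mul_one] at h2
    exact Units.ext h2
  have hinv : ∀ x : H, (ρ x : Matrix (Fin 2) (Fin 2) k)
      = (((c x)⁻¹ : kˣ) : k) • (ρ₀ x : Matrix (Fin 2) (Fin 2) k) := by
    intro x
    rw [hc x, smul_smul, Units.inv_mul, one_smul]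
  have hmul : ∀ x y : H, (c (x * y))⁻¹ = (c x)⁻¹ * (c y)⁻¹ := by
    intro x y
    apply hone _ _ (ρ₀ (x * y))
    have h1 := hinv (x * y)
    rw [map_mul, Units.val_mul, hinv x, hinv y, Matrix.smul_mul, Matrix.mul_smul, smul_smul,
      ← Units.val_mul, ← Units.val_mul, ← map_mul] at h1
    rw [← Subgroup.coe_mul]
    exact h1.symm
  refine ⟨{ toFun := fun x => (c x)⁻¹, map_one' := ?_, map_mul' := hmul }, fun x => hinv x⟩
  have h1 := hmul 1 1
  rw [one_mul] at h1
  exact (mul_eq_left.1 h1.symm)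

end Q112PI
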