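import Mathlib
import Pool.Agent.Q112.PI.Ext

/-!
# Oddness of the extension
-/

set_option autoImplicit false

namespace Q112PI

open Matrix

variable {k : Type} [Field k]

/-- An involution in `GL₂` which is not scalar has determinant `-1`. -/
lemma det_of_sq_one {X : Matrix (Fin 2) (Fin 2) k} (h : X * X = 1)
    (hns : ¬ ∃ z : k, X = z • (1 : Matrix (Fin 2) (Fin 2) k)) : X.det = -1 := by
  have h00 := congrFun (congrFun h 0) 0
  have h01 := congrFun (congrFun h 0) 1
  have h10 := congrFun (congrFun h 1) 0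
  have h11 := congrFun (congrFun h 1) 1
  simp only [Matrix.mul_apply, Fin.sum_univ_two, Matrix.one_apply_eq, ne_eq, zero_ne_one,
    not_false_eq_true, Matrix.one_apply_ne, one_ne_zero] at h00 h01 h10 h11
  by_cases ht : X 0 0 + X 1 1 = 0
  · rw [Matrix.det_fin_two]
    linear_combination X 0 0 * ht - h00
  · exfalso
    apply hns
    have hb : X 0 1 = 0 := by
      have : (X 0 0 + X 1 1) * X 0 1 = 0 := by linear_combination h01
      exact (mul_eq_zero.1 this).resolve_left ht
    have hc : X 1 0 = 0 := by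
      have : (X 0 0 + X 1 1) * X 1 0 = 0 := by linear_combination h10
      exact (mul_eq_zero.1 this).resolve_left ht
    have had : X 0 0 = X 1 1 := by
      have : (X 0 0 + X 1 1) * (X 0 0 - X 1 1) = 0 := by
        linear_combination h00 - h11
      exact sub_eq_zero.1 ((mul_eq_zero.1 this).resolve_left ht)
    refine ⟨X 0 0, ?_⟩
    ext i j
    fin_cases i <;> fin_cases j <;> simp [hb, hc, had]

variable {W : Type} [Group W]

/-- If conjugation by the involution `c` does not act on the projective representation of `A` as the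
identity, then the extension is odd at `c`. -/
theorem det_extension {H A : Subgroup W} [hN : A.Normal] (hAH : A ≤ H) {ρ : H →* GL (Fin 2) k}
    {ρ₀ : W →* GL (Fin 2) k} (htw : IsTwist (ρ₀.comp H.subtype) ρ) {c : W} (hc : c * c = 1)
    (hodd : ¬ ∃ χ : A →* kˣ, ∀ a : A,
      (ρ (Subgroup.inclusion hAH (MulAut.conjNormal c a)) : Matrix (Fin 2) (Fin 2) k)
        = (χ a : k) • (ρ (Subgroup.inclusion hAH a) : Matrix (Fin 2) (Fin 2) k)) :
    (ρ₀ c : Matrix (Fin 2) (Fin 2) k).det = -1 := by
  apply det_of_sq_one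
  · rw [← Units.val_mul, ← map_mul, hc, map_one, Units.val_one]
  · rintro ⟨z, hz⟩
    apply hodd
    obtain ⟨χ, hχ⟩ := htw
    let χA : A →* kˣ := χ.comp (Subgroup.inclusion hAH)
    refine ⟨(χA.comp (MulAut.conjNormal c).toMonoidHom) * χA⁻¹, fun a => ?_⟩
    have h1 := hχ (Subgroup.inclusion hAH (MulAut.conjNormal c a))
    have h2 := hχ (Subgroup.inclusion hAH a)
    have h3 : ((ρ₀.comp H.subtype) (Subgroup.inclusion hAH (MulAut.conjNormal c a)))
        = (ρ₀.comp H.subtype) (Subgroup.inclusion hAH a) := by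
      show ρ₀ (c * (a : W) * c⁻¹) = ρ₀ (a : W)
      have h4 : (ρ₀ c : Matrix (Fin 2) (Fin 2) k) * (ρ₀ (a : W) : Matrix (Fin 2) (Fin 2) k)
          = (ρ₀ (a : W) : Matrix (Fin 2) (Fin 2) k) * (ρ₀ c : Matrix (Fin 2) (Fin 2) k) := by
        rw [hz, Matrix.smul_mul, Matrix.mul_smul, one_mul, mul_one]
      have h5 : ρ₀ c * ρ₀ (a : W) = ρ₀ (a : W) * ρ₀ c := by
        apply Units.ext
        rw [Units.val_mul, Units.val_mul]
        exact h4
      rw [map_mul, map_mul, h5, map_inv, mul_inv_cancel_right]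
    rw [h3] at h1
    rw [h1, h2, smul_smul]
    congr 1
    show (χ (Subgroup.inclusion hAH (MulAut.conjNormal c a)) : k)
      = ((χ (Subgroup.inclusion hAH (MulAut.conjNormal c a))
          * (χ (Subgroup.inclusion hAH a))⁻¹ : kˣ) : k) * (χ (Subgroup.inclusion hAH a) : k)
    rw [← Units.val_mul, inv_mul_cancel_right]

end Q112PI
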